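import Mathlib

namespace Pool.Agent.H.MP_99184a_co

open Polynomial LaurentPolynomial Matrix

abbrev R := LaurentPolynomial ℤ
abbrev M2 := Matrix (Fin 2) (Fin 2) R

def Iv (f : R) (a b : ℤ) : Prop :=
  a ≤ b ∧ ∀ j, (a ≤ j → j ≤ b → 0 < f.coeff j) ∧ (j < a ∨ b < j → f.coeff j = 0)

theorem Iv.nonneg {f : R} {a b : ℤ} (h : Iv f a b) (j : ℤ) : 0 ≤ f.coeff j := by
  by_cases h1 : a ≤ j
  · by_cases h2 : j ≤ b
    · exact ((h.2 j).1 h1 h2).le
    · exact ((h.2 j).2 (Or.inr (by omega))).ge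
  · exact ((h.2 j).2 (Or.inl (by omega))).ge

theorem Iv.add {f g : R} {a b c d : ℤ} (hf : Iv f a b) (hg : Iv g c d) (h1 : c ≤ b + 1)
    (h2 : a ≤ d + 1) : Iv (f + g) (min a c) (max b d) := by
  have := hf.1
  have := hg.1
  refine ⟨by omega, fun j => ⟨fun h3 h4 => ?_, fun h3 => ?_⟩⟩
  · simp only [AddMonoidAlgebra.coeff_add, Finsupp.add_apply]
    by_cases h5 : a ≤ j ∧ j ≤ b
    · have := (hf.2 j).1 h5.1 h5.2
      have := hg.nonneg j
      omega
    · have := (hg.2 j).1 (by omega) (by omega)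
      have := hf.nonneg j
      omega
  · simp only [AddMonoidAlgebra.coeff_add, Finsupp.add_apply]
    rw [(hf.2 j).2 (by omega), (hg.2 j).2 (by omega)]
    simp

theorem Iv.mul {f g : R} {a b c d : ℤ} (hf : Iv f a b) (hg : Iv g c d) :
    Iv (f * g) (a + c) (b + d) := by
  have := hf.1
  have := hg.1
  refine ⟨by omega, fun j => ⟨fun h3 h4 => ?_, fun h3 => ?_⟩⟩
  · rw [AddMonoidAlgebra.coeff_mul_apply_left, Finsupp.sum]
    apply Finset.sum_pos'
    · intro i _
      exact mul_nonneg (hf.nonneg _) (hg.nonneg _)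
    · have h5 := (hf.2 (max a (j - d))).1 (by omega) (by omega)
      refine ⟨max a (j - d), by simpa using h5.ne', mul_pos h5 ?_⟩
      exact (hg.2 _).1 (by omega) (by omega)
  · rw [AddMonoidAlgebra.coeff_mul_apply_left, Finsupp.sum]
    apply Finset.sum_eq_zero
    intro i _
    by_cases h5 : i < a ∨ b < i
    · rw [(hf.2 i).2 h5, zero_mul]
    · rw [(hg.2 _).2 (by omega), mul_zero]

theorem iv_T (n : ℤ) : Iv (T n) n n := by
  refine ⟨le_rfl, fun j => ⟨fun h3 h4 => ?_, fun h3 => ?_⟩⟩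
  · rw [T_apply, if_pos (by omega)]; norm_num
  · rw [T_apply, if_neg (by omega)]

theorem Iv.inv {f : R} {a b : ℤ} (hf : Iv f a b) : Iv (invert f) (-b) (-a) := by
  have := hf.1
  refine ⟨by omega, fun j => ⟨fun h3 h4 => ?_, fun h3 => ?_⟩⟩
  · rw [invert_apply]; exact (hf.2 _).1 (by omega) (by omega)
  · rw [invert_apply]; exact (hf.2 _).2 (by omega)

theorem Iv.uniq {f : R} {a b c d : ℤ} (hf : Iv f a b) (hg : Iv f c d) : a = c ∧ b = d := by
  have h1 := hf.1
  have h2 := hg.1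
  have h3 := (hf.2 a).1 le_rfl h1
  have h4 := (hf.2 b).1 h1 le_rfl
  have h5 := (hg.2 c).1 le_rfl h2
  have h6 := (hg.2 d).1 h2 le_rfl
  have e1 : ¬ (a < c ∨ d < a) := fun h => by rw [(hg.2 a).2 h] at h3; omega
  have e2 : ¬ (b < c ∨ d < b) := fun h => by rw [(hg.2 b).2 h] at h4; omega
  have e3 : ¬ (c < a ∨ b < c) := fun h => by rw [(hf.2 c).2 h] at h5; omega
  have e4 : ¬ (d < a ∨ b < d) := fun h => by rw [(hf.2 d).2 h] at h6; omega
  omega

noncomputable def kk : R := T 1 + T (-1)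

def Sy (f : R) : Prop := ∃ n : ℤ, Iv f (-n) n

theorem Sy.add {f g : R} (hf : Sy f) (hg : Sy g) : Sy (f + g) := by
  obtain ⟨n, hn⟩ := hf
  obtain ⟨m, hm⟩ := hg
  have := hn.1
  have := hm.1
  refine ⟨max n m, ?_⟩
  convert hn.add hm (by omega) (by omega) using 1
  omega

theorem Sy.mul {f g : R} (hf : Sy f) (hg : Sy g) : Sy (f * g) := by
  obtain ⟨n, hn⟩ := hf
  obtain ⟨m, hm⟩ := hg
  refine ⟨n + m, ?_⟩
  convert hn.mul hm using 1
  omega

theorem Sy.addk {f g : R} (hf : Sy f) (hg : Sy g) : Sy (f + kk * g) := by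
  obtain ⟨n, hn⟩ := hf
  obtain ⟨m, hm⟩ := hg
  have := hn.1
  have := hm.1
  refine ⟨max n (m + 1), ?_⟩
  have h1 := (hn.add ((iv_T 1).mul hm) (by omega) (by omega)).add ((iv_T (-1)).mul hm)
    (by omega) (by omega)
  convert h1 using 1
  · simp only [kk]; ring
  · omega
  · omega

theorem sy_one : Sy 1 := ⟨0, by simpa using iv_T 0⟩

theorem sy_nat (n : ℕ) : Sy ((n : R) + 1) := by
  induction n with
  | zero => simpa using sy_one
  | succ n ih => push_cast; exact ih.add sy_one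

theorem sy_lin (a b : ℕ) : Sy (((a : R) + 1) + kk * ((b : R) + 1)) := (sy_nat a).addk (sy_nat b)

theorem Sy.val {f g : R} (hf : Sy f) (hg : Sy g) : ∃ a b, Iv (f + g * T 1) a b := by
  obtain ⟨n, hn⟩ := hf
  obtain ⟨m, hm⟩ := hg
  have := hn.1
  have := hm.1
  exact ⟨_, _, hn.add (hm.mul (iv_T 1)) (by omega) (by omega)⟩

def Good (G : M2) : Prop := ∀ i j, Sy (G i j)

theorem Good.mul {G H : M2} (hG : Good G) (hH : Good H) : Good (G * H) := by
  intro i j
  rw [Matrix.mul_apply, Fin.sum_univ_two]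
  exact ((hG _ _).mul (hH _ _)).add ((hG _ _).mul (hH _ _))

theorem Good.tr {G : M2} (hG : Good G) : Good Gᵀ := fun i j => hG j i

noncomputable def Uk : M2 := !![1, kk; 0, 1]
noncomputable def W : M2 := !![3 + kk * 3, 4 + kk * 3; 2 + kk * 3, 3 + kk * 3]
noncomputable def AA (G : M2) : M2 := G * Uk * Gᵀ

theorem good_W : Good W := by
  intro i j
  fin_cases i <;> fin_cases j
  · convert sy_lin 2 2 using 1; simp [W]; norm_num
  · convert sy_lin 3 2 using 1; simp [W]; norm_num
  · convert sy_lin 1 2 using 1; simp [W]; norm_num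
  · convert sy_lin 2 2 using 1; simp [W]; norm_num

theorem Good.uk {G : M2} (hG : Good G) : Good (G * Uk) := by
  intro i j
  fin_cases j
  · convert hG i 0 using 1
    simp [Uk, Matrix.mul_apply, Fin.sum_univ_two]
  · convert (hG i 1).addk (hG i 0) using 1
    simp [Uk, Matrix.mul_apply, Fin.sum_univ_two]; ring

theorem Good.aa {G : M2} (hG : Good G) : Good (AA G) := hG.uk.mul hG.tr

def PR (G : M2) : Prop := Good (AA G * W) ∧ Good (Wᵀ * G)
def PL (G : M2) : Prop := (∀ H, Good H → Good ((AA G)ᵀ * H)) ∧ (∀ H, Good H → Good (H * G))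

theorem Good.pr {G : M2} (hG : Good G) : PR G := ⟨hG.aa.mul good_W, good_W.tr.mul hG⟩
theorem Good.pl {G : M2} (hG : Good G) : PL G :=
  ⟨fun _ hH => hG.aa.tr.mul hH, fun _ hH => hH.mul hG⟩

def Inv (G : M2) : Prop := ∀ i j, invert (G i j) = G i j

theorem Inv.mul {G H : M2} (hG : Inv G) (hH : Inv H) : Inv (G * H) := by
  intro i j
  rw [Matrix.mul_apply, Fin.sum_univ_two, map_add, map_mul, map_mul, hG, hG, hH, hH]

theorem Inv.tr {G : M2} (hG : Inv G) : Inv Gᵀ := fun i j => hG j i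

theorem inv_kk : invert kk = kk := by simp [kk, add_comm]

theorem inv_Uk : Inv Uk := by
  intro i j
  fin_cases i <;> fin_cases j <;> simp [Uk, inv_kk]

theorem inv_W : Inv W := by
  intro i j
  fin_cases i <;> fin_cases j <;> simp [W, inv_kk, map_ofNat]

theorem Inv.aa {G : M2} (hG : Inv G) : Inv (AA G) := (hG.mul inv_Uk).mul hG.tr

theorem det_W : W.det = 1 := by
  simp [W, Matrix.det_fin_two]; ring

theorem det_AA {G : M2} (h : G.det = 1) : (AA G).det = 1 := by
  simp [AA, h, Uk, Matrix.det_fin_two_of]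

noncomputable def val (G : M2) : R := G 0 0 + G 1 0 + (G 0 1 + G 1 1) * T 1
noncomputable def uu (G : M2) : R := G 0 0 + G 0 1 + G 1 0 + G 1 1

theorem qp : (T 1 : R) * T (-1) = 1 := by rw [← T_add]; simp

theorem val_mul {G : M2} (hi : Inv G) (hd : G.det = 1) (H : M2) :
    val (H * G) * invert (val G) =
      uu (H * AA G) - T 1 * (H 0 0 + H 1 0 - H 0 1 - H 1 1) := by
  rw [Matrix.det_fin_two] at hd
  simp only [val, map_add, map_mul, hi 0 0, hi 0 1, hi 1 0, hi 1 1, invert_T, uu, AA,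
    Matrix.mul_apply, Fin.sum_univ_two, Uk, Matrix.transpose_apply, kk]
  simp
  linear_combination ((H 0 0 + H 1 0) * (G 0 1 ^ 2 + G 0 1 * G 1 1) +
      (H 0 1 + H 1 1) * (G 1 1 ^ 2 + G 0 1 * G 1 1)) * qp -
    T 1 * (H 0 0 + H 1 0 - H 0 1 - H 1 1) * hd

theorem val_mul' {G : M2} (hi : Inv G) (hd : G.det = 1) (H : M2) :
    val (H * G) * invert (val G) =
      uu (H * (AA G)ᵀ) + T (-1) * (H 0 0 + H 1 0 - H 0 1 - H 1 1) := by
  rw [Matrix.det_fin_two] at hd
  simp only [val, map_add, map_mul, hi 0 0, hi 0 1, hi 1 0, hi 1 1, invert_T, uu, AA,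
    Matrix.mul_apply, Fin.sum_univ_two, Uk, Matrix.transpose_apply, kk]
  simp
  linear_combination ((H 0 0 + H 1 0) * (G 0 1 ^ 2 + G 0 1 * G 1 1) +
      (H 0 1 + H 1 1) * (G 1 1 ^ 2 + G 0 1 * G 1 1)) * qp +
    T (-1) * (H 0 0 + H 1 0 - H 0 1 - H 1 1) * hd

theorem val_self {G : M2} (hi : Inv G) (hd : G.det = 1) :
    val G * invert (val G) = uu (AA G) := by
  have := val_mul hi hd 1
  simpa using this

theorem uu_tr (G : M2) : uu Gᵀ = uu G := by
  simp [uu]; ring

structure St (l r m : M2) : Prop where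
  dl : l.det = 1
  dr : r.det = 1
  dm : m.det = 1
  il : Inv l
  ir : Inv r
  im : Inv m
  rel : (AA m)ᵀ = AA r * W * AA l
  pl : PL l
  pr : PR r
  ml : PL m
  mr : PR m

theorem AA_mul (H G : M2) : (AA (H * G))ᵀ = H * (AA G)ᵀ * Hᵀ := by
  simp [AA, Matrix.transpose_mul, Matrix.mul_assoc]

theorem St.rel' {l r m : M2} (h : St l r m) : AA m = (AA l)ᵀ * Wᵀ * (AA r)ᵀ := by
  rw [← Matrix.transpose_transpose (AA m), h.rel]
  simp [Matrix.transpose_mul, Matrix.mul_assoc]

theorem St.good1 {l r m : M2} (h : St l r m) : Good (AA r * W * l) := h.pl.2 _ h.pr.1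

theorem St.good2 {l r m : M2} (h : St l r m) : Good ((AA l)ᵀ * Wᵀ * r) := by
  rw [Matrix.mul_assoc]; exact h.pl.1 _ h.pr.2

theorem St.step1 {l r m : M2} (h : St l r m) : St m r (AA r * W * l) where
  dl := h.dm
  dr := h.dr
  dm := by simp [det_AA h.dr, det_W, h.dl]
  il := h.im
  ir := h.ir
  im := (h.ir.aa.mul inv_W).mul h.il
  rel := by
    rw [AA_mul, h.rel']
    simp [Matrix.transpose_mul, Matrix.mul_assoc]
  pl := h.ml
  pr := h.pr
  ml := h.good1.pl
  mr := h.good1.pr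

theorem St.step2 {l r m : M2} (h : St l r m) : St l m ((AA l)ᵀ * Wᵀ * r) where
  dl := h.dl
  dr := h.dm
  dm := by simp [det_AA h.dl, det_W, h.dr]
  il := h.il
  ir := h.im
  im := (h.il.aa.tr.mul inv_W.tr).mul h.ir
  rel := by
    rw [AA_mul, h.rel']
    simp [Matrix.transpose_mul, Matrix.mul_assoc]
  pl := h.pl
  pr := h.mr
  ml := h.good2.pl
  mr := h.good2.pr

theorem St.ex1 {l r m : M2} (h : St l r m) : val (AA r * W * l) * invert (val l) =
    T 1 * (val r * invert (val r)) + val m * invert (val m) := by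
  rw [val_mul h.il h.dl, ← h.rel, uu_tr, val_self h.ir h.dr, val_self h.im h.dm]
  simp [uu, W, Matrix.mul_apply, Fin.sum_univ_two]
  ring

theorem St.ex2 {l r m : M2} (h : St l r m) : val ((AA l)ᵀ * Wᵀ * r) * invert (val r) =
    T (-1) * (val l * invert (val l)) + val m * invert (val m) := by
  rw [val_mul' h.ir h.dr, ← h.rel', val_self h.il h.dl, val_self h.im h.dm]
  simp [uu, W, Matrix.mul_apply, Fin.sum_univ_two]
  ring

theorem Good.val {G : M2} (h : Good G) : ∃ a b, Iv (val G) a b :=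
  ((h 0 0).add (h 1 0)).val ((h 0 1).add (h 1 1))

noncomputable def r0 : M2 := !![1, -kk; -1, 1 + kk]
noncomputable def m0 : M2 := !![1, 0; 1 + kk, 1]

theorem sy1 : Sy (1 + kk) := by simpa using sy_lin 0 0

theorem good_m0 : Good (AA m0) := by
  intro i j
  fin_cases i <;> fin_cases j
  · convert sy_one using 1; simp [AA, m0, Uk, Matrix.mul_apply, Fin.sum_univ_two]
  · convert sy_lin 0 1 using 1; simp [AA, m0, Uk, Matrix.mul_apply, Fin.sum_univ_two]; ring
  · convert sy1 using 1; simp [AA, m0, Uk, Matrix.mul_apply, Fin.sum_univ_two]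
  · convert (sy1.mul (sy_lin 0 1)).add sy_one using 1
    simp [AA, m0, Uk, Matrix.mul_apply, Fin.sum_univ_two]; ring

theorem Good.m0 {H : M2} (h : Good H) : Good (H * m0) := by
  intro i j
  fin_cases j
  · convert (h i 0).add ((h i 1).mul sy1) using 1
    simp [MP_99184a_co.m0, Matrix.mul_apply, Fin.sum_univ_two]
  · convert h i 1 using 1
    simp [MP_99184a_co.m0, Matrix.mul_apply, Fin.sum_univ_two]

theorem AA_r0 : AA r0 = !![1, -1; -1 - kk, 2 + kk] := by
  ext1 i j
  fin_cases i <;> fin_cases j <;>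
    simp [AA, r0, Uk, Matrix.mul_apply, Fin.sum_univ_two, Matrix.vecMul, dotProduct] <;> ring

theorem AA_m0 : AA m0 = !![1, 1 + 2 * kk; 1 + kk, (1 + kk) * (1 + 2 * kk) + 1] := by
  ext1 i j
  fin_cases i <;> fin_cases j <;>
    simp [AA, m0, Uk, Matrix.mul_apply, Fin.sum_univ_two, Matrix.vecMul, dotProduct] <;> ring

theorem AA_one : AA 1 = Uk := by simp [AA]

theorem st0 : St 1 r0 m0 where
  dl := by simp
  dr := by simp [r0, Matrix.det_fin_two]
  dm := by simp [m0, Matrix.det_fin_two]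
  il := by
    intro i j
    fin_cases i <;> fin_cases j <;> simp
  ir := by
    intro i j
    fin_cases i <;> fin_cases j <;> simp [r0, inv_kk]
  im := by
    intro i j
    fin_cases i <;> fin_cases j <;> simp [m0, inv_kk]
  rel := by
    rw [AA_r0, AA_m0, AA_one]
    ext1 i j
    fin_cases i <;> fin_cases j <;>
      simp [W, Uk, Matrix.mul_apply, Fin.sum_univ_two] <;> ring
  pl := by
    refine ⟨fun H hH => ?_, fun H hH => by simpa using hH⟩
    have := hH.tr.uk.tr
    simpa [AA, Matrix.transpose_mul] using this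
  pr := by
    constructor
    · intro i j
      fin_cases i <;> fin_cases j
      · convert sy_one using 1
        simp [AA_r0, W, Matrix.mul_apply, Fin.sum_univ_two]; ring
      · convert sy_one using 1
        simp [AA_r0, W, Matrix.mul_apply, Fin.sum_univ_two]; ring
      · convert sy_lin 0 1 using 1
        simp [AA_r0, W, Matrix.mul_apply, Fin.sum_univ_two]; ring
      · convert sy_lin 1 1 using 1
        simp [AA_r0, W, Matrix.mul_apply, Fin.sum_univ_two]; ring
    · intro i j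
      fin_cases i <;> fin_cases j
      · convert sy_one using 1
        simp [r0, W, Matrix.mul_apply, Fin.sum_univ_two]; ring
      · convert sy_lin 1 1 using 1
        simp [r0, W, Matrix.mul_apply, Fin.sum_univ_two]; ring
      · convert sy_one using 1
        simp [r0, W, Matrix.mul_apply, Fin.sum_univ_two]; ring
      · convert sy_lin 2 1 using 1
        simp [r0, W, Matrix.mul_apply, Fin.sum_univ_two]; ring
  ml := ⟨fun _ hH => good_m0.tr.mul hH, fun _ hH => hH.m0⟩
  mr := ⟨good_m0.mul good_W, good_W.tr.m0⟩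

end Pool.Agent.H.MP_99184a_co
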