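import Pool.Agent.H.MP_99184a_co.A

namespace Pool.Agent.H.MP_99184a_co

open Polynomial LaurentPolynomial Matrix

def PosP (p : ℤ[X]) : Prop := ∀ j ≤ p.natDegree, 0 < p.coeff j

theorem coeff_toL (p : ℤ[X]) (n : ℕ) : (toLaurent p).coeff (n : ℤ) = p.coeff n := by
  rw [coeff_toLaurent]
  exact Finsupp.mapDomain_apply Nat.castEmbedding.injective _ n

theorem coeff_toL_neg (p : ℤ[X]) (j : ℤ) (hj : j < 0) : (toLaurent p).coeff j = 0 := by
  rw [coeff_toLaurent]
  apply Finsupp.mapDomain_of_notMem_range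
  rintro ⟨n, hn⟩
  simp at hn
  omega

theorem PosP.iv {p : ℤ[X]} (h : PosP p) : Iv (toLaurent p) 0 p.natDegree := by
  refine ⟨by omega, fun j => ⟨fun h1 h2 => ?_, fun h1 => ?_⟩⟩
  · lift j to ℕ using h1
    rw [coeff_toL]
    exact h _ (by omega)
  · rcases h1 with h1 | h1
    · exact coeff_toL_neg _ _ h1
    · lift j to ℕ using (by omega)
      rw [coeff_toL]
      exact coeff_eq_zero_of_natDegree_lt (by omega)

theorem Iv.poly {f : R} {n : ℤ} (h : Iv f 0 n) :
    ∃ p : ℤ[X], toLaurent p = f ∧ PosP p ∧ (p.natDegree : ℤ) = n := by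
  have h0 := h.1
  lift n to ℕ using h0
  set p : ℤ[X] := ∑ j ∈ Finset.range (n + 1), monomial j (f.coeff j) with hp
  have hc : ∀ j : ℕ, p.coeff j = f.coeff j := by
    intro j
    rw [hp, finsetSum_coeff]
    simp only [coeff_monomial, Finset.sum_ite_eq', Finset.mem_range]
    split_ifs with h1
    · rfl
    · exact ((h.2 j).2 (Or.inr (by omega))).symm
  have hd : p.natDegree = n := by
    apply natDegree_eq_of_le_of_coeff_ne_zero
    · rw [natDegree_le_iff_coeff_eq_zero]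
      intro j hj
      rw [hc]
      exact (h.2 j).2 (Or.inr (by omega))
    · rw [hc]
      exact ((h.2 n).1 (by omega) le_rfl).ne'
  refine ⟨p, ?_, ?_, by rw [hd]⟩
  · apply LaurentPolynomial.ext
    intro j
    by_cases hj : j < 0
    · rw [coeff_toL_neg _ _ hj, (h.2 j).2 (Or.inl hj)]
    · lift j to ℕ using (by omega)
      rw [coeff_toL, hc]
  · intro j hj
    rw [hc]
    exact (h.2 j).1 (by omega) (by omega)

def Rep (p : ℤ[X]) (x : R) : Prop := ∃ i : ℤ, toLaurent p = T i * x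

theorem TT (i : ℤ) : (T i : R) * T (-i) = 1 := by rw [← T_add]; simp

theorem Rep.symm {p : ℤ[X]} {x : R} (h : Rep p x) :
    toLaurent p * invert (toLaurent p) = x * invert x := by
  obtain ⟨i, hi⟩ := h
  rw [hi, map_mul, invert_T]
  linear_combination (x * invert x) * TT i

def Mu (s : ℤ) (x c r d : ℤ[X]) : Prop :=
  toLaurent d * toLaurent r.reverse =
    T c.natDegree * (T s * (toLaurent x * invert (toLaurent x)) +
      toLaurent c * invert (toLaurent c))

theorem Mu.uniq {s : ℤ} {x c r d e : ℤ[X]} (hr : PosP r) (h1 : Mu s x c r d)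
    (h2 : Mu s x c r e) : d = e := by
  have h3 : r ≠ 0 := by
    intro h
    have := hr 0 (by omega)
    simp [h] at this
  have h4 : d * r.reverse = e * r.reverse := by
    apply toLaurent_injective
    rw [map_mul, map_mul, h1, h2]
  exact mul_right_cancel₀ (by simpa using h3) h4

theorem step {s : ℤ} (hs : s = 1 ∨ s = -1) {x c r : ℤ[X]} {X C Rr D : R} (hx : PosP x)
    (hc : PosP c) (hr : PosP r) (dx : x.natDegree < c.natDegree)
    (dr : r.natDegree < c.natDegree) (rx : Rep x X) (rc : Rep c C) (rr : Rep r Rr)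
    (hD : ∃ a b, Iv D a b) (he : D * invert Rr = T s * (X * invert X) + C * invert C) :
    ∃ d, Mu s x c r d ∧ PosP d ∧ Rep d D ∧ c.natDegree < d.natDegree := by
  obtain ⟨a, b, hD⟩ := hD
  obtain ⟨i, hi⟩ := rr
  set y : R := T (c.natDegree - r.natDegree + i) * D with hy
  have e1 : y * toLaurent r.reverse = T c.natDegree * (T s * (toLaurent x * invert (toLaurent x)) +
      toLaurent c * invert (toLaurent c)) := by
    rw [rx.symm, rc.symm, ← he, toLaurent_reverse, hi, map_mul, invert_T, hy]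
    have : (T c.natDegree : R) =
        T (c.natDegree - r.natDegree + i) * T (-i) * T r.natDegree := by
      rw [← T_add, ← T_add]; congr 1; ring
    rw [this]; ring
  have i1 := (iv_T c.natDegree).mul (((iv_T s).mul (hx.iv.mul hx.iv.inv)).add
    (hc.iv.mul hc.iv.inv) (by omega) (by omega))
  have i2 : Iv y _ _ := (iv_T (c.natDegree - r.natDegree + i)).mul hD
  have i3 := i2.mul (hr.iv.inv.mul (iv_T r.natDegree))
  rw [← toLaurent_reverse, e1] at i3
  have u := i1.uniq i3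
  have i4 : Iv y 0 (2 * c.natDegree - r.natDegree) := by
    convert i2 using 1 <;> omega
  obtain ⟨d, h1, h2, h3⟩ := i4.poly
  refine ⟨d, ?_, h2, ⟨_, h1⟩, by omega⟩
  rw [Mu, h1, e1]

def NI (a b c : ℤ[X]) (s : ℤ) : Prop :=
  ∃ l r m, St l r m ∧ Rep c (val m) ∧
    ((s = 1 ∧ Rep a (val r) ∧ Rep b (val l)) ∨ (s = -1 ∧ Rep a (val l) ∧ Rep b (val r))) ∧
    PosP a ∧ PosP b ∧ PosP c ∧ a.natDegree < c.natDegree ∧ b.natDegree < c.natDegree

theorem NI.left {a b c : ℤ[X]} {s : ℤ} (h : NI a b c s) : ∃ d, Mu s a c b d ∧ NI a c d s := by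
  obtain ⟨l, r, m, hst, rc, h1, pa, pb, pc, da, db⟩ := h
  rcases h1 with ⟨rfl, ra, rb⟩ | ⟨rfl, ra, rb⟩
  · obtain ⟨d, e1, e2, e3, e4⟩ :=
      step (Or.inl rfl) pa pc pb da db ra rc rb hst.good1.val hst.ex1
    exact ⟨d, e1, _, _, _, hst.step1, e3, Or.inl ⟨rfl, ra, rc⟩, pa, pc, e2, by omega, e4⟩
  · obtain ⟨d, e1, e2, e3, e4⟩ :=
      step (Or.inr rfl) pa pc pb da db ra rc rb hst.good2.val hst.ex2
    exact ⟨d, e1, _, _, _, hst.step2, e3, Or.inr ⟨rfl, ra, rc⟩, pa, pc, e2, by omega, e4⟩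

theorem NI.right {a b c : ℤ[X]} {s : ℤ} (h : NI a b c s) :
    ∃ d, Mu (-s) b c a d ∧ NI b c d (-s) := by
  obtain ⟨l, r, m, hst, rc, h1, pa, pb, pc, da, db⟩ := h
  rcases h1 with ⟨rfl, ra, rb⟩ | ⟨rfl, ra, rb⟩
  · obtain ⟨d, e1, e2, e3, e4⟩ :=
      step (Or.inr rfl) pb pc pa db da rb rc ra hst.good2.val hst.ex2
    exact ⟨d, e1, _, _, _, hst.step2, e3, Or.inr ⟨rfl, rb, rc⟩, pb, pc, e2, by omega, e4⟩
  · obtain ⟨d, e1, e2, e3, e4⟩ :=
      step (Or.inl rfl) pb pc pa db da rb rc ra hst.good1.val hst.ex1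
    exact ⟨d, by simpa using e1, _, _, _, hst.step1, e3, Or.inl ⟨by simp, rb, rc⟩, pb, pc, e2,
      by omega, e4⟩

theorem ni0 : NI 1 (1 + X) (1 + 2 * X + 2 * X ^ 2) 1 := by
  have d1 : (1 + X : ℤ[X]).natDegree = 1 := by compute_degree!
  have d2 : (1 + 2 * X + 2 * X ^ 2 : ℤ[X]).natDegree = 2 := by compute_degree!
  refine ⟨1, r0, m0, st0, ⟨1, ?_⟩, Or.inl ⟨rfl, ⟨-1, ?_⟩, ⟨0, ?_⟩⟩, ?_, ?_, ?_, ?_, ?_⟩
  · simp [val, m0, kk, map_ofNat]
    have : (T 2 : R) = T 1 * T 1 := by rw [← T_add]; norm_num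
    rw [this]
    linear_combination (-1 : R) * qp
  · have : val r0 = T 1 := by simp only [val, r0]; simp
    rw [this, map_one, mul_comm, qp]
  · simp [val]
  · intro j hj
    simp at hj
    simp [hj]
  · intro j hj
    rw [d1] at hj
    interval_cases j <;> simp [coeff_one, coeff_X]
  · intro j hj
    rw [d2] at hj
    interval_cases j <;> simp [coeff_one, coeff_X]
  · rw [d2]; simp
  · rw [d1, d2]; simp

end Pool.Agent.H.MP_99184a_co
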